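import Mathlib
import Pool.Agent.V5helper10.KirchDefs
import Pool.Agent.V5helper10.KirchProof

/-!
# A positive-fraction version of Kirchberger's theorem

If all but an `ε`-fraction of the `(d+2)`-subsets of two `N`-point sets `A, B` in `ℝ^d` are
separated by a hyperplane, then `A` and `B` can be separated by a hyperplane after the removal of
at most `g(ε) N` points from each of them, where `g(ε) = C_d ε^(1/(d+3)) → 0`.

The definitions are in `Pool.Agent.V5helper10.KirchDefs`.
-/

open Filter Topology

namespace Pool.Agent.Results.MP_ff3a4f_co.PositiveFractionKirchberger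

open Pool.Agent.V5helper10.Kirchberger

/-- **The positive-fraction version of Kirchberger's theorem.** For every dimension `d ≥ 1` there
is a function `g` with `g(ε) → 0` as `ε → 0`, in fact `g(ε) = C ε^(1/(d+3))`, such that the
following holds. Let `A` and `B` be disjoint sets of `N` points in `ℝ^d`, `2N ≥ d+2`, such that
`A ∪ B` is in general position. If at least a `(1-ε)`-fraction of the `(d+2)`-subsets of `A ∪ B` are
good then there are `A' ⊆ A` and `B' ⊆ B` which are separated by a hyperplane and have at least
`(1 - g(ε)) N` points each. -/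
theorem result (d : ℕ) (hd : 1 ≤ d) : ∃ g : ℝ → ℝ,
    Tendsto g (𝓝[>] 0) (𝓝 0) ∧
    (∃ C : ℝ, ∀ ε : ℝ, 0 < ε → g ε = C * ε ^ (1 / ((d : ℝ) + 3))) ∧
    PositiveFraction d g :=
  positiveFraction d hd

end Pool.Agent.Results.MP_ff3a4f_co.PositiveFractionKirchberger
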